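import Pool.Agent.H77.PUC.StmtsE

universe u

namespace PUC

open Polynomial Filter Topology

theorem sFin : SFin.{u} := by
  intro K Ω _ _ _ _ _ _ _ _ S
  classical
  have : CharZero (RatFunc K) :=
    charZero_of_injective_algebraMap (algebraMap K (RatFunc K)).injective
  have hcl : IsAlgClosure (RatFunc K) Ω := ⟨inferInstance, inferInstance⟩
  have hn : Normal (RatFunc K) Ω := IsAlgClosure.normal (RatFunc K) Ω
  let F0 : IntermediateField (RatFunc K) Ω := IntermediateField.adjoin (RatFunc K) (S : Set Ω)
  have hfd : FiniteDimensional (RatFunc K) F0 :=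
    IntermediateField.finiteDimensional_adjoin
      (fun x _ => (Algebra.IsAlgebraic.isAlgebraic (R := RatFunc K) x).isIntegral)
  refine ⟨IntermediateField.normalClosure (RatFunc K) F0 Ω, ?_, ?_, ?_⟩
  · exact inferInstance
  · have : Normal (RatFunc K) (IntermediateField.normalClosure (RatFunc K) F0 Ω) := inferInstance
    exact IsGalois.mk
  · intro s hs
    exact IntermediateField.le_normalClosure F0 (IntermediateField.subset_adjoin _ _ hs)

end PUC
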