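import Pool.Agent.H77.PUC.StmtsE

universe u

namespace PUC

open Polynomial Filter Topology

theorem NEA_alg {K Ω : Type u} [Field K] [Field Ω] [Algebra K Ω] [Algebra (RatFunc K) Ω]
    [IsScalarTower K (RatFunc K) Ω] (p : K[X]) :
    algebraMap (RatFunc K) Ω (algebraMap K[X] (RatFunc K) p) = aeval (zz K Ω) p := by
  unfold zz
  rw [aeval_algebraMap_apply, ← RatFunc.algebraMap_X, aeval_algebraMap_apply, aeval_X_left_apply]

theorem NEA_val {K Ω : Type u} [Field K] [Field Ω] [Algebra K Ω] (P : Place K Ω) (w f : Ω)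
    (A B : K[X]) (hw : w ∈ P.ring) (hf : f * aeval w B = aeval w A)
    (hB : B.eval (P.val w) ≠ 0) :
    f ∈ P.ring ∧ P.val f = A.eval (P.val w) / B.eval (P.val w) := by
  have hb1 := P.aeval_mem hw B
  have hb2 := P.val_aeval hw B
  have hb3 : P.val (aeval w B) ≠ 0 := by rw [hb2]; exact hB
  have hb0 : aeval w B ≠ 0 := by
    intro h0
    rw [h0, P.val_zero] at hb3
    exact hb3 rfl
  have hi := P.inv_mem_of_val hb1 hb3
  have hfe : f = aeval w A * (aeval w B)⁻¹ := by
    rw [← hf, mul_assoc, mul_inv_cancel₀ hb0, mul_one]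
  constructor
  · rw [hfe]
    exact P.ring.mul_mem _ _ (P.aeval_mem hw A) hi
  · rw [hfe, P.val_mul (P.aeval_mem hw A) hi, P.val_inv hb1 hb3, hb2, P.val_aeval hw A,
      div_eq_mul_inv]

theorem NEA_near {K Ω : Type u} [NontriviallyNormedField K] [IsUltrametricDist K] [Field Ω]
    [Algebra K Ω] (P0 : Place K Ω) (w f : Ω) (A B : K[X]) (hw : w ∈ P0.ring)
    (hf : f * aeval w B = aeval w A) (hB : B.eval (P0.val w) ≠ 0) (h1 : ‖P0.val f‖ ≤ 1) :
    ∃ r : ℝ, 0 < r ∧ ∀ P : Place K Ω, w ∈ P.ring → ‖P.val w - P0.val w‖ ≤ r →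
      f ∈ P.ring ∧ ‖P.val f‖ ≤ 1 := by
  have hv0 := (NEA_val P0 w f A B hw hf hB).2
  have hc : ContinuousAt (fun x : K => A.eval x / B.eval x) (P0.val w) :=
    (A.continuous.continuousAt).div (B.continuous.continuousAt) hB
  have e1 : ∀ᶠ x in 𝓝 (P0.val w),
      dist (A.eval x / B.eval x) (A.eval (P0.val w) / B.eval (P0.val w)) < 1 :=
    hc (Metric.ball_mem_nhds _ one_pos)
  have e2 : ∀ᶠ x in 𝓝 (P0.val w), B.eval x ≠ 0 :=
    B.continuous.continuousAt.eventually_ne hB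
  obtain ⟨ε, hε, hb⟩ := Metric.eventually_nhds_iff.1 (e1.and e2)
  refine ⟨ε / 2, by positivity, fun P hP hd => ?_⟩
  have h2 : dist (P.val w) (P0.val w) < ε := by
    rw [dist_eq_norm]; linarith
  obtain ⟨h3, h4⟩ := hb h2
  obtain ⟨h5, h6⟩ := NEA_val P w f A B hP hf h4
  refine ⟨h5, ?_⟩
  rw [← hv0, ← h6, dist_eq_norm] at h3
  have h7 : P.val f = (P.val f - P0.val f) + P0.val f := by ring
  rw [h7]
  exact (IsUltrametricDist.norm_add_le_max _ _).trans (max_le h3.le h1)

theorem NEA_min {α : Type*} (T : Finset α) (Q : α → ℝ → Prop)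
    (hm : ∀ t r r', r' ≤ r → Q t r → Q t r') (h : ∀ t ∈ T, ∃ r : ℝ, 0 < r ∧ Q t r) :
    ∃ r : ℝ, 0 < r ∧ ∀ t ∈ T, Q t r := by
  classical
  induction T using Finset.induction_on with
  | empty => exact ⟨1, one_pos, by simp⟩
  | insert a s ha ih =>
    obtain ⟨r1, hr1, h1⟩ := ih fun t ht => h t (Finset.mem_insert_of_mem ht)
    obtain ⟨r2, hr2, h2⟩ := h a (Finset.mem_insert_self _ _)
    refine ⟨min r1 r2, lt_min hr1 hr2, fun t ht => ?_⟩
    rcases Finset.mem_insert.1 ht with rfl | ht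
    · exact hm _ _ _ (min_le_right _ _) h2
    · exact hm _ _ _ (min_le_left _ _) (h1 t ht)

theorem NEA_rev {K Ω : Type u} [Field K] [Field Ω] [Algebra K Ω] (z : Ω) (hz : z ≠ 0)
    (p : K[X]) : aeval z p = aeval z⁻¹ p.reverse * z ^ p.natDegree := by
  let _ : Invertible z := invertibleOfNonzero hz
  have h := Polynomial.eval₂_reverse_mul_pow (algebraMap K Ω) z p
  rw [invOf_eq_inv] at h
  rw [Polynomial.aeval_def, Polynomial.aeval_def, h]

theorem sNea (hEVR : SEvr.{u}) : SNea.{u} := by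
  intro K Ω _ _ _ _ _ _ P0 T hT
  have hnd : ∀ t : RatFunc K, algebraMap (RatFunc K) Ω t * aeval (zz K Ω) t.denom =
      aeval (zz K Ω) t.num := by
    intro t
    rw [← NEA_alg, ← NEA_alg, ← map_mul]
    congr 1
    have h1 := RatFunc.num_div_denom t
    have h2 : algebraMap K[X] (RatFunc K) t.denom ≠ 0 :=
      RatFunc.algebraMap_ne_zero t.denom_ne_zero
    rw [div_eq_iff h2] at h1
    exact h1.symm
  constructor
  · intro hz
    have key : ∀ t ∈ T, ∃ r : ℝ, 0 < r ∧ ∀ P : Place K Ω, zz K Ω ∈ P.ring →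
        ‖P.val (zz K Ω) - P0.val (zz K Ω)‖ ≤ r →
        algebraMap (RatFunc K) Ω t ∈ P.ring ∧ ‖P.val (algebraMap (RatFunc K) Ω t)‖ ≤ 1 := by
      intro t ht
      obtain ⟨h1, h2⟩ := hT t ht
      have h3 : reg (P0.val (zz K Ω)) t := ((hEVR K Ω P0 t hz).1).1 h1
      exact NEA_near P0 (zz K Ω) _ t.num t.denom hz (hnd t) h3 h2
    obtain ⟨r, hr, h⟩ := NEA_min T (fun t r => ∀ P : Place K Ω, zz K Ω ∈ P.ring →
        ‖P.val (zz K Ω) - P0.val (zz K Ω)‖ ≤ r →
        algebraMap (RatFunc K) Ω t ∈ P.ring ∧ ‖P.val (algebraMap (RatFunc K) Ω t)‖ ≤ 1)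
      (fun t r r' hr h P hP hd => h P hP (hd.trans hr)) key
    exact ⟨r, hr, fun P hP hd t ht => h t ht P hP hd⟩
  · intro hz
    have hz0 : zz K Ω ≠ 0 := by
      intro h0
      rw [h0] at hz
      exact hz P0.ring.zero_mem
    have hu : (zz K Ω)⁻¹ ∈ P0.ring := P0.inv_mem_of_not_mem hz
    have hu0 : P0.val (zz K Ω)⁻¹ = 0 := P0.val_inv_of_not_mem hz
    have key : ∀ t ∈ T, ∃ r : ℝ, 0 < r ∧ ∀ P : Place K Ω, (zz K Ω)⁻¹ ∈ P.ring →
        ‖P.val (zz K Ω)⁻¹ - P0.val (zz K Ω)⁻¹‖ ≤ r →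
        algebraMap (RatFunc K) Ω t ∈ P.ring ∧ ‖P.val (algebraMap (RatFunc K) Ω t)‖ ≤ 1 := by
      intro t ht
      obtain ⟨h1, h2⟩ := hT t ht
      by_cases ht0 : t = 0
      · subst ht0
        refine ⟨1, one_pos, fun P _ _ => ?_⟩
        rw [map_zero, P.val_zero, norm_zero]
        exact ⟨P.ring.zero_mem, zero_le_one⟩
      have hN0 : t.num.reverse.eval 0 ≠ 0 := by
        rw [← coeff_zero_eq_eval_zero, coeff_zero_reverse]
        exact leadingCoeff_ne_zero.2 (RatFunc.num_ne_zero ht0)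
      have hD0 : t.denom.reverse.eval 0 ≠ 0 := by
        rw [← coeff_zero_eq_eval_zero, coeff_zero_reverse]
        exact leadingCoeff_ne_zero.2 t.denom_ne_zero
      have hE := hnd t
      rw [NEA_rev (zz K Ω) hz0 t.denom, NEA_rev (zz K Ω) hz0 t.num] at hE
      have hnd' : t.num.natDegree ≤ t.denom.natDegree := by
        by_contra hlt
        push Not at hlt
        have hE2 : algebraMap (RatFunc K) Ω t * aeval (zz K Ω)⁻¹ t.denom.reverse *
            (zz K Ω)⁻¹ ^ (t.num.natDegree - t.denom.natDegree) =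
            aeval (zz K Ω)⁻¹ t.num.reverse := by
          have h3 : zz K Ω ^ t.num.natDegree =
              zz K Ω ^ t.denom.natDegree * zz K Ω ^ (t.num.natDegree - t.denom.natDegree) := by
            rw [← pow_add]; congr 1; omega
          rw [h3] at hE
          have h4 : zz K Ω ^ t.denom.natDegree ≠ 0 := pow_ne_zero _ hz0
          have h5 : zz K Ω ^ (t.num.natDegree - t.denom.natDegree) ≠ 0 := pow_ne_zero _ hz0
          rw [inv_pow, ← div_eq_mul_inv, div_eq_iff h5]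
          have h6 : zz K Ω ^ t.denom.natDegree * (algebraMap (RatFunc K) Ω t *
              aeval (zz K Ω)⁻¹ t.denom.reverse) = zz K Ω ^ t.denom.natDegree *
              (aeval (zz K Ω)⁻¹ t.num.reverse *
                zz K Ω ^ (t.num.natDegree - t.denom.natDegree)) := by
            linear_combination hE
          exact mul_left_cancel₀ h4 h6
        have hm1 := P0.aeval_mem hu t.denom.reverse
        have hm2 := P0.pow_mem hu (t.num.natDegree - t.denom.natDegree)
        have h6 := congrArg P0.val hE2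
        rw [P0.val_mul (P0.ring.mul_mem _ _ h1 hm1) hm2, P0.val_pow hu, hu0,
          zero_pow (by omega), mul_zero, P0.val_aeval hu, hu0] at h6
        exact hN0 h6.symm
      have hE3 : algebraMap (RatFunc K) Ω t * aeval (zz K Ω)⁻¹ t.denom.reverse =
          aeval (zz K Ω)⁻¹ (t.num.reverse * X ^ (t.denom.natDegree - t.num.natDegree)) := by
        have h3 : zz K Ω ^ t.denom.natDegree =
            zz K Ω ^ t.num.natDegree * zz K Ω ^ (t.denom.natDegree - t.num.natDegree) := by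
          rw [← pow_add]; congr 1; omega
        rw [h3] at hE
        have h4 : zz K Ω ^ t.num.natDegree ≠ 0 := pow_ne_zero _ hz0
        have h5 : zz K Ω ^ (t.denom.natDegree - t.num.natDegree) ≠ 0 := pow_ne_zero _ hz0
        rw [map_mul, map_pow, aeval_X, inv_pow]
        have h6 : zz K Ω ^ t.num.natDegree * (algebraMap (RatFunc K) Ω t *
            aeval (zz K Ω)⁻¹ t.denom.reverse *
              zz K Ω ^ (t.denom.natDegree - t.num.natDegree)) = zz K Ω ^ t.num.natDegree *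
            (aeval (zz K Ω)⁻¹ t.num.reverse) := by
          linear_combination hE
        have h7 := mul_left_cancel₀ h4 h6
        rw [← div_eq_mul_inv, eq_div_iff h5]
        exact h7
      exact NEA_near P0 (zz K Ω)⁻¹ _ _ _ hu hE3 (by rw [hu0]; exact hD0) h2
    obtain ⟨r, hr, h⟩ := NEA_min T (fun t r => ∀ P : Place K Ω, (zz K Ω)⁻¹ ∈ P.ring →
        ‖P.val (zz K Ω)⁻¹ - P0.val (zz K Ω)⁻¹‖ ≤ r →
        algebraMap (RatFunc K) Ω t ∈ P.ring ∧ ‖P.val (algebraMap (RatFunc K) Ω t)‖ ≤ 1)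
      (fun t r r' hr h P hP hd => h P hP (hd.trans hr)) key
    refine ⟨1 / r, fun P hP t ht => ?_⟩
    by_cases hzP : zz K Ω ∈ P.ring
    · have h1 := hP hzP
      have h2 : 0 < ‖P.val (zz K Ω)‖ := lt_of_lt_of_le (by positivity) h1
      have h3 : P.val (zz K Ω) ≠ 0 := norm_pos_iff.1 h2
      refine h t ht P (P.inv_mem_of_val hzP h3) ?_
      rw [hu0, sub_zero, P.val_inv hzP h3, norm_inv]
      rw [inv_le_comm₀ h2 hr]
      rwa [one_div] at h1
    · refine h t ht P (P.inv_mem_of_not_mem hzP) ?_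
      rw [hu0, P.val_inv_of_not_mem hzP, sub_zero, norm_zero]
      exact hr.le

end PUC
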